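import Mathlib
import Pool.Agent.TH314.CSD.Scales

/-!
# Limits of a lattice along a thick set of directions of the diagonal group
-/

set_option autoImplicit false

open Filter Topology Matrix

namespace Pool.Agent.Q222.TD

open H715R2

variable {d : ℕ}

/-- the position of the integer point `x` -/
noncomputable def pos (g : Matrix (Fin d) (Fin d) ℝ) (x : Fin d → ℤ) (i : Fin d) : ℝ :=
  Real.log |(g *ᵥ iR x) i|

/-- the ball with centre `s` and radius `R` lies in `D` -/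
def Ball (D : Set (Fin d → ℝ)) (s : Fin d → ℝ) (R : ℝ) : Prop :=
  ∀ t : Fin d → ℝ, (∀ i, |t i - s i| ≤ R) → t ∈ D

/-- `D` contains arbitrarily large balls with centre in the hyperplane of sum zero -/
def Thick (D : Set (Fin d → ℝ)) : Prop :=
  ∀ R : ℝ, ∃ s : Fin d → ℝ, ∑ i, s i = 0 ∧ Ball D s R

/-- a part of the orbit -/
def OrbD (g : Matrix (Fin d) (Fin d) ℝ) (D : Set (Fin d → ℝ)) (N : ℕ) :
    Set (Matrix (Fin d) (Fin d) ℝ) :=
  {h | ∃ (s : Fin d → ℝ) (γ : Matrix (Fin d) (Fin d) ℤ), ∑ i, s i = 0 ∧ Ball D s N ∧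
    IsUnit γ.det ∧ h = diagonal (fun i => Real.exp (-s i)) * g * zR γ}

/-- the limit set along `D` -/
def Lim (g : Matrix (Fin d) (Fin d) ℝ) (D : Set (Fin d → ℝ)) : Set (Matrix (Fin d) (Fin d) ℝ) :=
  ⋂ N : ℕ, closure (OrbD g D N)

lemma exp_prod {s : Fin d → ℝ} (hs : ∑ i, s i = 0) : ∏ i, Real.exp (-s i) = 1 := by
  rw [← Real.exp_sum, Finset.sum_neg_distrib, hs, neg_zero, Real.exp_zero]

lemma orbD_subset (g : Matrix (Fin d) (Fin d) ℝ) (D : Set (Fin d → ℝ)) (N : ℕ) :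
    OrbD g D N ⊆ Orb g := by
  rintro h ⟨s, γ, hs, -, hγ, rfl⟩
  exact ⟨fun i => Real.exp (-s i), γ, fun i => Real.exp_pos _, exp_prod hs, hγ, rfl⟩

lemma Ball.mono {D : Set (Fin d → ℝ)} {s : Fin d → ℝ} {R R' : ℝ} (h : Ball D s R') (hR : R ≤ R') :
    Ball D s R := fun t ht => h t fun i => (ht i).trans hR

lemma orbD_anti (g : Matrix (Fin d) (Fin d) ℝ) (D : Set (Fin d → ℝ)) {N N' : ℕ} (h : N ≤ N') :
    OrbD g D N' ⊆ OrbD g D N := by
  rintro x ⟨s, γ, hs, hb, hγ, rfl⟩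
  exact ⟨s, γ, hs, hb.mono (by exact_mod_cast h), hγ, rfl⟩

lemma lim_closed (g : Matrix (Fin d) (Fin d) ℝ) (D : Set (Fin d → ℝ)) : IsClosed (Lim g D) :=
  isClosed_iInter fun _ => isClosed_closure

lemma lim_subset (g : Matrix (Fin d) (Fin d) ℝ) (D : Set (Fin d → ℝ)) :
    Lim g D ⊆ closure (Orb g) := fun _ hh =>
  closure_mono (orbD_subset g D 0) (Set.mem_iInter.1 hh 0)

lemma lim_inv (g : Matrix (Fin d) (Fin d) ℝ) (D : Set (Fin d → ℝ)) : H715R2.Inv (Lim g D) := by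
  intro h hh b δ hb0 hb1 hδ
  rw [Lim, Set.mem_iInter]
  intro N
  obtain ⟨N', hN'⟩ := exists_nat_ge ((N : ℝ) + ∑ i, |Real.log (b i)|)
  have h1 : h ∈ closure (OrbD g D N') := Set.mem_iInter.1 hh N'
  refine map_mem_closure (f := fun h : Matrix (Fin d) (Fin d) ℝ => diagonal b * h * zR δ)
    ((continuous_const.matrix_mul continuous_id).matrix_mul continuous_const) h1 ?_
  rintro _ ⟨s, γ, hs, hb, hγ, rfl⟩
  refine ⟨fun i => s i - Real.log (b i), γ * δ, ?_, ?_, ?_, ?_⟩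
  · rw [Finset.sum_sub_distrib, hs, ← Real.log_prod (fun i _ => (hb0 i).ne'), hb1, Real.log_one,
      sub_zero]
  · intro t ht
    refine hb t fun i => ?_
    have h2 : |Real.log (b i)| ≤ ∑ i, |Real.log (b i)| :=
      Finset.single_le_sum (f := fun i => |Real.log (b i)|) (fun j _ => abs_nonneg _)
        (Finset.mem_univ i)
    have h3 : t i - s i = (t i - (s i - Real.log (b i))) - Real.log (b i) := by ring
    rw [h3]
    refine (abs_sub _ _).trans ?_
    have h4 := ht i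
    linarith
  · rw [det_mul]; exact hγ.mul hδ
  · have h2 : (fun i => Real.exp (-(s i - Real.log (b i)))) =
        fun i => b i * Real.exp (-s i) := by
      funext i
      rw [neg_sub, Real.exp_sub, Real.exp_log (hb0 i), Real.exp_neg]
      rfl
    rw [h2, ← diagonal_mul_diagonal, zR_mul]
    simp only [Matrix.mul_assoc]

lemma lim_nonempty (hd : 0 < d) {g : Matrix (Fin d) (Fin d) ℝ} (hg : g.det ≠ 0) {ν : ℝ}
    (hν : 0 < ν) (hnu : HasNu g ν) {D : Set (Fin d → ℝ)} (hD : Thick D) : (Lim g D).Nonempty := by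
  obtain ⟨R, hR⟩ := exists_bound hd |g.det| ν (abs_pos.2 hg) hν
  set 𝒦 : Set (Matrix (Fin d) (Fin d) ℝ) := {h | ∀ i j, |h i j| ≤ R} with h𝒦
  have hcpt : IsCompact 𝒦 := isCompact_box R
  have hstep : ∀ N : ℕ, (closure (OrbD g D N) ∩ 𝒦).Nonempty := by
    intro N
    obtain ⟨s, hs, hb⟩ := hD N
    have h1 : diagonal (fun i => Real.exp (-s i)) * g * zR 1 ∈ OrbD g D N :=
      ⟨s, 1, hs, hb, by simp, rfl⟩
    have h2 := subset_closure (orbD_subset g D N h1)
    obtain ⟨γ, hγ, hγR⟩ := hR _ (abs_det_closure h2) (hasNu_closure hnu h2)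
    refine ⟨_, subset_closure ?_, hγR⟩
    refine ⟨s, 1 * γ, hs, hb, by rw [one_mul]; exact hγ, ?_⟩
    rw [zR_mul, Matrix.mul_assoc (diagonal (fun i => Real.exp (-s i)) * g)]
  have h1 := IsCompact.nonempty_iInter_of_directed_nonempty_isCompact_isClosed
    (fun N : ℕ => closure (OrbD g D N) ∩ 𝒦)
    (fun N N' => ⟨max N N', Set.inter_subset_inter_left _
        (closure_mono (orbD_anti g D (le_max_left N N'))),
      Set.inter_subset_inter_left _ (closure_mono (orbD_anti g D (le_max_right N N')))⟩)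
    hstep (fun N => hcpt.inter_left isClosed_closure) (fun N => isClosed_closure.inter hcpt.isClosed)
  obtain ⟨h, hh⟩ := h1
  rw [Set.mem_iInter] at hh
  exact ⟨h, Set.mem_iInter.2 fun N => (hh N).1⟩

/-- **Approximation along a thick set.** -/
theorem lim_approx {g h : Matrix (Fin d) (Fin d) ℝ} {D : Set (Fin d → ℝ)} (hh : h ∈ Lim g D)
    {ι : Type*} [Finite ι] (x : ι → Fin d → ℤ) (hx : ∀ k i, (h *ᵥ iR (x k)) i ≠ 0)
    {U : Set (ι → ℝ)} (hU : U ∈ 𝓝 (fun k => FF h (iR (x k)))) :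
    ∃ γ : Matrix (Fin d) (Fin d) ℤ, IsUnit γ.det ∧ (∀ k, pos g (γ *ᵥ x k) ∈ D) ∧
      (fun k => FF g (iR (γ *ᵥ x k))) ∈ U := by
  classical
  cases nonempty_fintype ι
  have hc1 : ∀ k i, Continuous (fun h' : Matrix (Fin d) (Fin d) ℝ => (h' *ᵥ iR (x k)) i) := by
    intro k i
    have : (fun h' : Matrix (Fin d) (Fin d) ℝ => (h' *ᵥ iR (x k)) i) =
        fun h' => ∑ j, h' i j * iR (x k) j := by
      funext h'
      rw [Matrix.mulVec, dotProduct]
    rw [this]
    exact continuous_finsetSum _ fun j _ => (continuous_apply_apply i j).mul continuous_const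
  -- bounds for the logarithms
  obtain ⟨N, hN⟩ := exists_nat_ge (∑ k, ∑ i, |Real.log (|(h *ᵥ iR (x k)) i|)| + 1)
  have hev : ∀ᶠ h' in 𝓝 h, (∀ k i, (h' *ᵥ iR (x k)) i ≠ 0 ∧
      |Real.log (|(h' *ᵥ iR (x k)) i|)| < N) ∧ (fun k => FF h' (iR (x k))) ∈ U := by
    refine Filter.Eventually.and ?_ ?_
    · rw [Filter.eventually_all]
      intro k
      rw [Filter.eventually_all]
      intro i
      have h1 : Tendsto (fun h' : Matrix (Fin d) (Fin d) ℝ => (h' *ᵥ iR (x k)) i) (𝓝 h)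
          (𝓝 ((h *ᵥ iR (x k)) i)) := (hc1 k i).tendsto h
      have h2 := h1.eventually_ne (hx k i)
      have h3 : Tendsto (fun h' : Matrix (Fin d) (Fin d) ℝ =>
          |Real.log (|(h' *ᵥ iR (x k)) i|)|) (𝓝 h) (𝓝 |Real.log (|(h *ᵥ iR (x k)) i|)|) :=
        ((Real.continuousAt_log (abs_ne_zero.2 (hx k i))).tendsto.comp h1.abs).abs
      have h4 : |Real.log (|(h *ᵥ iR (x k)) i|)| < N := by
        have h5 : |Real.log (|(h *ᵥ iR (x k)) i|)| ≤ ∑ i, |Real.log (|(h *ᵥ iR (x k)) i|)| :=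
          Finset.single_le_sum (f := fun i => |Real.log (|(h *ᵥ iR (x k)) i|)|)
            (fun j _ => abs_nonneg _) (Finset.mem_univ i)
        have h6 : ∑ i, |Real.log (|(h *ᵥ iR (x k)) i|)| ≤
            ∑ k, ∑ i, |Real.log (|(h *ᵥ iR (x k)) i|)| :=
          Finset.single_le_sum (f := fun k => ∑ i, |Real.log (|(h *ᵥ iR (x k)) i|)|)
            (fun j _ => Finset.sum_nonneg fun _ _ => abs_nonneg _) (Finset.mem_univ k)
        linarith
      exact h2.and (h3.eventually (gt_mem_nhds h4))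
    · have h1 : Tendsto (fun h' : Matrix (Fin d) (Fin d) ℝ => fun k => FF h' (iR (x k))) (𝓝 h)
          (𝓝 (fun k => FF h (iR (x k)))) :=
        tendsto_pi_nhds.2 fun k => (continuous_FF (iR (x k))).tendsto h
      exact h1 hU
  obtain ⟨h', ⟨s, γ, hs, hb, hγ, rfl⟩, hev1, hev2⟩ :=
    ((mem_closure_iff_frequently.1 (Set.mem_iInter.1 hh N)).and_eventually hev).exists
  refine ⟨γ, hγ, fun k => ?_, ?_⟩
  · refine hb _ fun i => ?_
    obtain ⟨h1, h2⟩ := hev1 k i
    have h3 : ((diagonal (fun i => Real.exp (-s i)) * g * zR γ) *ᵥ iR (x k)) i =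
        Real.exp (-s i) * (g *ᵥ iR (γ *ᵥ x k)) i := by
      rw [Matrix.mul_assoc, ← mulVec_mulVec, mulVec_diagonal, ← mulVec_mulVec, zR_mulVec_iR]
    rw [h3] at h1 h2
    have h4 : (g *ᵥ iR (γ *ᵥ x k)) i ≠ 0 := fun h0 => h1 (by rw [h0, mul_zero])
    rw [abs_mul, abs_of_pos (Real.exp_pos _), Real.log_mul (Real.exp_pos _).ne'
      (abs_ne_zero.2 h4), Real.log_exp] at h2
    have h5 : pos g (γ *ᵥ x k) i - s i = -s i + Real.log |(g *ᵥ iR (γ *ᵥ x k)) i| := by
      rw [pos]; ring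
    rw [h5]
    exact h2.le
  · have h1 : (fun k => FF (diagonal (fun i => Real.exp (-s i)) * g * zR γ) (iR (x k))) =
        fun k => FF g (iR (γ *ᵥ x k)) := by
      funext k
      exact FF_orb (exp_prod hs) g γ (x k)
    rw [← h1]
    exact hev2

/-- a recurrent point is its own limit along every thick set -/
theorem mem_lim_self (hd : 0 < d) {h : Matrix (Fin d) (Fin d) ℝ} (hg : h.det ≠ 0) {ν : ℝ}
    (hν : 0 < ν) (hnu : HasNu h ν) (hrec : Pool.Agent.TH314.CSD.Recurrent h)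
    {D : Set (Fin d → ℝ)} (hD : Thick D) : h ∈ Lim h D := by
  have h1 := hrec.minimal (Lim h D) (lim_subset h D) (lim_closed h D)
    (lim_nonempty hd hg hν hnu hD) (lim_inv h D)
  rw [h1]
  exact subset_closure (mem_orb_self h)

end Pool.Agent.Q222.TD
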