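import Mathlib
import Pool.Agent.Q222.TD.Lim
import Pool.Agent.Y327.Recur
import Pool.Agent.TH314.CSD.Asym

/-!
# Values along thick sets of directions, and in balls of directions
-/

set_option autoImplicit false

open Filter Topology Matrix

namespace Pool.Agent.Q222.TD

open H715R2

variable {d : ℕ}

lemma row_ne {h : Matrix (Fin d) (Fin d) ℝ} {ν : ℝ} (hν : 0 < ν) (hnu : HasNu h ν)
    {x : Fin d → ℤ} (hx : x ≠ 0) (i : Fin d) : (h *ᵥ iR x) i ≠ 0 := by
  intro h0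
  have h1 := hnu x hx
  rw [FF_eq, Finset.prod_eq_zero (Finset.mem_univ i) h0, abs_zero] at h1
  exact absurd h1 (not_le.2 hν)

/-- values of limit forms are limits of values along `D` -/
lemma small_mem {g h : Matrix (Fin d) (Fin d) ℝ} {D : Set (Fin d → ℝ)} (hh : h ∈ Lim g D) {ν : ℝ}
    (hν : 0 < ν) (hnu : HasNu h ν) {T : ℝ} {x : Fin d → ℤ} (hx : x ≠ 0)
    (hT : |FF h (iR x)| < T) : FF h (iR x) ∈ closure {t : ℝ | ∃ y : Fin d → ℤ, y ≠ 0 ∧
      pos g y ∈ D ∧ FF g (iR y) = t ∧ |t| < T} := by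
  rw [mem_closure_iff_nhds]
  intro U hU
  have hU' : U ∩ {t : ℝ | |t| < T} ∈ 𝓝 (FF h (iR x)) :=
    inter_mem hU ((isOpen_lt continuous_abs continuous_const).mem_nhds hT)
  have hV : (fun w : Unit → ℝ => w ()) ⁻¹' (U ∩ {t : ℝ | |t| < T}) ∈
      𝓝 (fun _ : Unit => FF h (iR x)) :=
    (continuous_apply ()).continuousAt.preimage_mem_nhds hU'
  obtain ⟨γ, hγ, hpos, hmem⟩ := lim_approx hh (fun _ : Unit => x)
    (fun _ i => row_ne hν hnu hx i) hV
  have h1 : FF g (iR (γ *ᵥ x)) ∈ U ∩ {t : ℝ | |t| < T} := hmem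
  exact ⟨_, h1.1, γ *ᵥ x, gamma_ne hγ hx, hpos (), rfl, h1.2⟩

/-- **Countably many limit values along a thick set.** -/
theorem countable_thick (hd : 3 ≤ d) {g : Matrix (Fin d) (Fin d) ℝ} (hg : g.det ≠ 0) {T ν : ℝ}
    (hT : ∀ h : Matrix (Fin d) (Fin d) ℝ, |h.det| = |g.det| →
      ∃ m : Fin d → ℤ, m ≠ 0 ∧ |FF h (iR m)| < T) (hν : 0 < ν) (hnu : HasNu g ν)
    {D : Set (Fin d → ℝ)} (hD : Thick D)
    (hC : (closure {t : ℝ | ∃ y : Fin d → ℤ, y ≠ 0 ∧ pos g y ∈ D ∧ FF g (iR y) = t ∧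
      |t| < T}).Countable) : PropInt g := by
  have hd0 : 0 < d := by omega
  have hdet : ∀ h ∈ Lim g D, |h.det| = |g.det| := fun h hh => abs_det_closure (lim_subset g D hh)
  have hnu' : ∀ h ∈ Lim g D, HasNu h ν := fun h hh => hasNu_closure hnu (lim_subset g D hh)
  obtain ⟨M, hMY, hMc, hMne, hMinv, hMmin⟩ := exists_minimal' hd0 (abs_pos.2 hg) hν
    (lim_closed g D) (lim_nonempty hd0 hg hν hnu hD) (lim_inv g D) hdet hnu'
  obtain ⟨h₀, hh₀, halg⟩ := exists_alg_point (by omega) (abs_pos.2 hg) hν hT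
    (fun h hh => hdet h (hMY hh)) (fun h hh => hnu' h (hMY hh)) hMc hMne hMinv hMmin
    ({0} ∪ closure {t : ℝ | ∃ y : Fin d → ℤ, y ≠ 0 ∧ pos g y ∈ D ∧ FF g (iR y) = t ∧ |t| < T})
    ((Set.countable_singleton _).union hC) (by
      intro h hh m hm
      by_cases hm0 : m = 0
      · left
        rw [Set.mem_singleton_iff, FF_eq]
        refine Finset.prod_eq_zero (Finset.mem_univ ⟨0, hd0⟩) ?_
        rw [hm0, Matrix.mulVec, dotProduct]
        refine Finset.sum_eq_zero fun j _ => ?_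
        simp [iR]
      · exact Or.inr (small_mem (hMY hh) hν (hnu' h (hMY hh)) hm0 hm))
  obtain ⟨K, hfin, hK, s, hs, hmem⟩ := halg ⟨0, hd0⟩
  have hcl := lim_subset g D (hMY hh₀)
  rcases limit_alg hd hg hcl ⟨0, hd0⟩ s hs K hK hmem with ⟨x, hx, hx0⟩ | hint | hdense
  · exact absurd hx0 (row_ne hν (hasNu_closure hnu hcl) hx ⟨0, hd0⟩)
  · exact hint
  · exfalso
    obtain ⟨x, hx, hx2⟩ := dense_ne hd0 hdense 0 ν hν
    rw [sub_zero] at hx2
    exact absurd (hnu x hx) (not_le.2 hx2)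

/-- integrality is invariant -/
lemma propInt_of_orb (hd : 3 ≤ d) {g : Matrix (Fin d) (Fin d) ℝ} (hg : g.det ≠ 0) {ν : ℝ}
    (hν : 0 < ν) (hnu : HasNu g ν) {a : Fin d → ℝ} (ha0 : ∀ i, 0 < a i) (ha : ∏ i, a i = 1)
    {γ : Matrix (Fin d) (Fin d) ℤ} (hγ : IsUnit γ.det)
    (hP : PropInt (diagonal a * g * zR γ)) : PropInt g := by
  have h1 : diagonal a * g * zR γ ∈ closure (Orb g) := subset_closure ⟨a, γ, ha0, ha, hγ, rfl⟩
  refine Pool.Agent.Y327.propInt_closure hd (g := diagonal a * g * zR γ) (h := g) ?_ hν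
    (hasNu_closure hnu h1) hP (subset_closure ?_)
  · rw [← abs_ne_zero, abs_det_closure h1, abs_ne_zero]
    exact hg
  · refine ⟨fun i => (a i)⁻¹, γ⁻¹, fun i => inv_pos.2 (ha0 i), ?_, ?_, ?_⟩
    · rw [Finset.prod_inv_distrib, ha, inv_one]
    · rw [Matrix.isUnit_nonsing_inv_det_iff]; exact hγ
    · have h2 : diagonal (fun i => (a i)⁻¹) * diagonal a = 1 := by
        rw [diagonal_mul_diagonal]
        have : (fun i => (a i)⁻¹ * a i) = fun _ : Fin d => (1 : ℝ) := by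
          funext i
          exact inv_mul_cancel₀ (ha0 i).ne'
        rw [this]
        exact diagonal_one
      rw [Matrix.mul_assoc (diagonal fun i => (a i)⁻¹), Matrix.mul_assoc (diagonal a * g),
        zR_inv hγ, Matrix.mul_one, ← Matrix.mul_assoc, h2, Matrix.one_mul]

end Pool.Agent.Q222.TD
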