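import Mathlib
import Pool.Agent.Q222.TD.Crit

/-!
# Distinct values in balls of directions, uniformly
-/

set_option autoImplicit false

open Filter Topology Matrix

namespace Pool.Agent.Q222.TD

open H715R2 Pool.Agent.TH314.CSD

/-- the values in `(-T, T)` at nonzero integer points with position in a ball -/
def ballVals {d : ℕ} (g : Matrix (Fin d) (Fin d) ℝ) (T : ℝ) (s : Fin d → ℝ) (ρ : ℝ) : Set ℝ :=
  {t | ∃ x : Fin d → ℤ, x ≠ 0 ∧ (∀ i, |pos g x i - s i| ≤ ρ) ∧ FF g (iR x) = t ∧ |t| < T}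

variable {d : ℕ}

lemma ballVals_finite {g : Matrix (Fin d) (Fin d) ℝ} (hg : g.det ≠ 0) {ν : ℝ} (hν : 0 < ν)
    (hnu : HasNu g ν) (T : ℝ) (s : Fin d → ℝ) (ρ : ℝ) : (ballVals g T s ρ).Finite := by
  have hu : IsUnit g.det := isUnit_iff_ne_zero.2 hg
  refine (valSet_finite g {t : ℝ | |t| < T} (∑ j, ∑ i, |g⁻¹ j i| * Real.exp (s i + ρ))).subset ?_
  rintro t ⟨x, hx, hpos, rfl, hT⟩
  refine ⟨x, hx, fun j => ?_, rfl, hT⟩
  have h1 : iR x = g⁻¹ *ᵥ (g *ᵥ iR x) := by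
    rw [mulVec_mulVec, Matrix.nonsing_inv_mul _ hu, one_mulVec]
  have h2 : (x j : ℝ) = ∑ i, g⁻¹ j i * (g *ᵥ iR x) i := by
    have := congrFun h1 j
    rw [Matrix.mulVec, dotProduct] at this
    exact this
  have h3 : ∀ i, |(g *ᵥ iR x) i| ≤ Real.exp (s i + ρ) := by
    intro i
    have h4 : 0 < |(g *ᵥ iR x) i| := abs_pos.2 (row_ne hν hnu hx i)
    rw [← Real.exp_log h4]
    apply Real.exp_le_exp.2
    have h5 := (abs_le.1 (hpos i)).2
    have h6 : pos g x i = Real.log |(g *ᵥ iR x) i| := rfl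
    rw [h6] at h5
    linarith
  rw [h2]
  refine (Finset.abs_sum_le_sum_abs _ _).trans ?_
  refine (Finset.sum_le_sum (g := fun i => |g⁻¹ j i| * Real.exp (s i + ρ)) fun i _ => ?_).trans ?_
  · rw [abs_mul]
    exact mul_le_mul_of_nonneg_left (h3 i) (abs_nonneg _)
  · exact Finset.single_le_sum (f := fun j => ∑ i, |g⁻¹ j i| * Real.exp (s i + ρ))
      (fun j _ => Finset.sum_nonneg fun i _ => mul_nonneg (abs_nonneg _) (Real.exp_pos _).le)
      (Finset.mem_univ j)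

lemma inv_bound (R V : ℝ) (hV : 0 < V) : ∃ B : ℝ, 0 < B ∧ ∀ h : Matrix (Fin d) (Fin d) ℝ,
    (∀ i j, |h i j| ≤ R) → |h.det| = V → ∑ i, ∑ j, |h⁻¹ i j| ≤ B := by
  have hc : Continuous (fun h : Matrix (Fin d) (Fin d) ℝ => ∑ i, ∑ j, |h.adjugate i j|) := by
    refine continuous_finsetSum _ fun i _ => continuous_finsetSum _ fun j _ => ?_
    exact (((Continuous.matrix_adjugate continuous_id).matrix_elem i j)).abs
  obtain ⟨B, hB⟩ := (isCompact_box R).exists_bound_of_continuousOn hc.continuousOn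
  refine ⟨V⁻¹ * (|B| + 1), by positivity, fun h hh hdet => ?_⟩
  have h1 := hB h hh
  rw [Real.norm_eq_abs] at h1
  have h2 : ∑ i, ∑ j, |h⁻¹ i j| = V⁻¹ * ∑ i, ∑ j, |h.adjugate i j| := by
    rw [Finset.mul_sum]
    refine Finset.sum_congr rfl fun i _ => ?_
    rw [Finset.mul_sum]
    refine Finset.sum_congr rfl fun j _ => ?_
    rw [Matrix.inv_def, Matrix.smul_apply, smul_eq_mul, abs_mul, Ring.inverse_eq_inv', abs_inv,
      hdet]
  rw [h2]
  refine mul_le_mul_of_nonneg_left ?_ (inv_pos.2 hV).le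
  have h3 := le_abs_self (∑ i, ∑ j, |h.adjugate i j|)
  have h4 := le_abs_self B
  linarith

/-- **Distinct values in every ball of directions.** -/
theorem count_ball (hd : 3 ≤ d) {V ν T : ℝ} (hV : 0 < V) (hν : 0 < ν)
    (hT : ∀ h : Matrix (Fin d) (Fin d) ℝ, |h.det| = V →
      ∃ m : Fin d → ℤ, m ≠ 0 ∧ |FF h (iR m)| < T) :
    ∃ c ρ₀ : ℝ, 0 < c ∧ ∀ g : Matrix (Fin d) (Fin d) ℝ, |g.det| = V → HasNu g ν → ¬ PropInt g →
      ∀ s : Fin d → ℝ, ∑ i, s i = 0 → ∀ ρ : ℝ, ρ₀ ≤ ρ →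
        c * ρ ^ ((1 - 1 / (d.minFac : ℝ)) / ((d : ℝ) - 1)) ≤ (ballVals g T s ρ).ncard := by
  classical
  obtain ⟨e, rfl⟩ : ∃ e, d = e + 1 := ⟨d - 1, by omega⟩
  have he : 2 ≤ e := by omega
  set Y : Set (Matrix (Fin (e + 1)) (Fin (e + 1)) ℝ) := {h | |h.det| = V ∧ HasNu h ν} with hY
  have hYc : IsClosed Y := by
    have h1 : IsClosed {h : Matrix (Fin (e + 1)) (Fin (e + 1)) ℝ | |h.det| = V} :=
      isClosed_eq (continuous_abs.comp continuous_det') continuous_const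
    have h2 : IsClosed {h : Matrix (Fin (e + 1)) (Fin (e + 1)) ℝ | HasNu h ν} := by
      have h3 : {h : Matrix (Fin (e + 1)) (Fin (e + 1)) ℝ | HasNu h ν} =
          ⋂ m : Fin (e + 1) → ℤ, {h | m ≠ 0 → ν ≤ |FF h (iR m)|} := by
        ext h
        simp [HasNu, Set.mem_iInter]
      rw [h3]
      refine isClosed_iInter fun m => ?_
      by_cases hm : m = 0
      · have : {h : Matrix (Fin (e + 1)) (Fin (e + 1)) ℝ | m ≠ 0 → ν ≤ |FF h (iR m)|} =
            Set.univ := by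
          ext h; simp [hm]
        rw [this]; exact isClosed_univ
      · have : {h : Matrix (Fin (e + 1)) (Fin (e + 1)) ℝ | m ≠ 0 → ν ≤ |FF h (iR m)|} =
            {h | ν ≤ |FF h (iR m)|} := by
          ext h; simp [hm]
        rw [this]
        exact isClosed_le continuous_const (continuous_abs.comp (continuous_FF (iR m)))
    exact h1.inter h2
  have hYinv : H715R2.Inv Y := by
    rintro h ⟨h1, h2⟩ a γ ha0 ha hγ
    have h3 : diagonal a * h * zR γ ∈ closure (Orb h) := subset_closure ⟨a, γ, ha0, ha, hγ, rfl⟩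
    exact ⟨(abs_det_closure h3).trans h1, hasNu_closure h2 h3⟩
  have hSo : IsOpen {t : ℝ | |t| < T} := isOpen_lt continuous_abs continuous_const
  obtain ⟨q, C, hC, hcount⟩ := count_places he hV hν hYc hYinv (fun h hh => hh.1)
    (fun h hh => hh.2) hSo (fun h hh => hT h hh.1)
  obtain ⟨C₁, hC₁, hreal⟩ := real_of_nat he
  obtain ⟨R, hR⟩ := exists_bound (d := e + 1) (by omega) V ν hV hν
  obtain ⟨B, hB0, hB⟩ := inv_bound (d := e + 1) R V hV
  have hcast : (((e + 1 : ℕ) : ℝ) - 1) = e := by push_cast; ring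
  rw [hcast]
  set κ : ℝ := (1 - 1 / (((e + 1).minFac : ℕ) : ℝ)) / e with hκ
  have hp2 : 2 ≤ (e + 1).minFac := (Nat.minFac_prime (by omega : e + 1 ≠ 1)).two_le
  have he0 : (0 : ℝ) < e := by
    have : 0 < e := by omega
    exact_mod_cast this
  have he1 : (1 : ℝ) ≤ e := by
    have : 1 ≤ e := by omega
    exact_mod_cast this
  have hκ0 : 0 ≤ κ := by
    rw [hκ]
    refine div_nonneg ?_ he0.le
    rw [sub_nonneg, div_le_one (by positivity)]
    have : 1 ≤ (e + 1).minFac := by omega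
    exact_mod_cast this
  set A₀ : ℝ := Real.log (((e : ℝ) + 1) * |R| * (C * B) + 1) with hA₀
  have hbase1 : 1 ≤ ((e : ℝ) + 1) * |R| * (C * B) + 1 := by
    have : 0 ≤ ((e : ℝ) + 1) * |R| * (C * B) := by positivity
    linarith
  have hA₀0 : 0 ≤ A₀ := Real.log_nonneg hbase1
  set a₀ : ℝ := |Real.log ν| + e * A₀ with ha₀
  have ha₀0 : 0 ≤ a₀ := by positivity
  refine ⟨(C₁ q)⁻¹ * (1 / (4 * (e : ℝ) ^ 2)) ^ κ, 2 * a₀ + 1, mul_pos (inv_pos.2 (hC₁ q))
    (Real.rpow_pos_of_pos (by positivity) _), fun g hdet hnu hint s hs ρ hρ => ?_⟩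
  have hg : g.det ≠ 0 := by
    intro h0
    rw [h0, abs_zero] at hdet
    exact hV.ne hdet
  have hgY : g ∈ Y := ⟨hdet, hnu⟩
  have hg1 : diagonal (fun i => Real.exp (-s i)) * g ∈ Y := by
    have := hYinv g hgY _ 1 (fun i => Real.exp_pos (-s i)) (exp_prod hs) (by simp)
    rwa [zR_one, Matrix.mul_one] at this
  obtain ⟨γ, hγ, hγR⟩ := hR _ hg1.1 hg1.2
  set g' := diagonal (fun i => Real.exp (-s i)) * g * zR γ with hg'
  have hg'Y : g' ∈ Y := hYinv g hgY _ γ (fun i => Real.exp_pos (-s i)) (exp_prod hs) hγ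
  have hint' : ¬ PropInt g' := fun hP => hint
    (propInt_of_orb (by omega) hg hν hnu (fun i => Real.exp_pos (-s i)) (exp_prod hs) hγ hP)
  have hρ0 : 0 < ρ := by linarith
  set y : ℝ := (ρ - a₀) / (2 * (e : ℝ) ^ 2) with hy
  have hy0 : 0 ≤ y := div_nonneg (by linarith) (by positivity)
  set n : ℕ := ⌊y⌋₊ with hn
  have hny : (n : ℝ) ≤ y := Nat.floor_le hy0
  have hny' : y < (n : ℝ) + 1 := Nat.lt_floor_add_one y
  set X : ℝ := C * B * Real.exp (2 * (e * n)) with hX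
  have hX0 : 0 < X := by positivity
  have hXc : C * (∑ i, ∑ j, |g'⁻¹ i j|) * Real.exp (2 * (e * n)) ≤ X := by
    rw [hX]
    refine mul_le_mul_of_nonneg_right ?_ (Real.exp_pos _).le
    exact mul_le_mul_of_nonneg_left (hB g' hγR hg'Y.1) hC.le
  have h1 := hreal q n _ (hcount g' hg'Y hint' n X hXc)
  -- positions
  have hsub : valSet g' {t : ℝ | |t| < T} X ⊆ ballVals g T s ρ := by
    rintro t ⟨x, hx, hxX, rfl, htT⟩
    have hFF : FF g' (iR x) = FF g (iR (γ *ᵥ x)) := FF_orb (exp_prod hs) g γ x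
    refine ⟨γ *ᵥ x, gamma_ne hγ hx, fun i => ?_, hFF.symm, htT⟩
    set r : ℝ := ((e : ℝ) + 1) * |R| * X + 1 with hr
    have hr1 : 1 ≤ r := by
      have : 0 ≤ ((e : ℝ) + 1) * |R| * X := by positivity
      linarith
    have hr0 : 0 < r := by linarith
    have hup : ∀ i, |(g' *ᵥ iR x) i| < r := by
      intro i
      have h2 : |(g' *ᵥ iR x) i| ≤ ∑ _j : Fin (e + 1), |R| * X := by
        rw [Matrix.mulVec, dotProduct]
        refine (Finset.abs_sum_le_sum_abs _ _).trans (Finset.sum_le_sum fun j _ => ?_)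
        rw [abs_mul]
        exact mul_le_mul ((hγR i j).trans (le_abs_self R)) (hxX j) (abs_nonneg _) (abs_nonneg _)
      rw [Finset.sum_const, Finset.card_univ, Fintype.card_fin, nsmul_eq_mul] at h2
      push_cast at h2
      rw [hr]
      linarith
    have hlow : ∀ i, ν / r ^ ((e + 1) - 1) ≤ |(g' *ᵥ iR x) i| := by
      intro i
      refine lower_bound (fun i => |(g' *ᵥ iR x) i|) hr0 (fun i => abs_nonneg _) hup ?_ i
      have h2 := hg'Y.2 x hx
      rw [FF_eq, Finset.abs_prod] at h2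
      exact h2
    have hlogr : Real.log r ≤ A₀ + 2 * (e * n) := by
      have hE1 : 1 ≤ Real.exp (2 * ((e : ℝ) * n)) := Real.one_le_exp (by positivity)
      have h2 : r ≤ (((e : ℝ) + 1) * |R| * (C * B) + 1) * Real.exp (2 * (e * n)) := by
        rw [hr, hX]
        have : ((e : ℝ) + 1) * |R| * (C * B * Real.exp (2 * (e * n))) + 1 =
            (((e : ℝ) + 1) * |R| * (C * B) + 1) * Real.exp (2 * (e * n)) -
              (Real.exp (2 * (e * n)) - 1) := by ring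
        rw [this]
        linarith
      refine (Real.log_le_log hr0 h2).trans (le_of_eq ?_)
      rw [Real.log_mul (by linarith) (Real.exp_pos _).ne', Real.log_exp]
    have hlogr0 : 0 ≤ Real.log r := Real.log_nonneg hr1
    have hpos' : pos g (γ *ᵥ x) i - s i = Real.log |(g' *ᵥ iR x) i| := by
      have h3 : (g' *ᵥ iR x) i = Real.exp (-s i) * (g *ᵥ iR (γ *ᵥ x)) i := by
        rw [hg', Matrix.mul_assoc, ← mulVec_mulVec, mulVec_diagonal, ← mulVec_mulVec,
          zR_mulVec_iR]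
      have h4 : (g *ᵥ iR (γ *ᵥ x)) i ≠ 0 := row_ne hν hnu (gamma_ne hγ hx) i
      rw [h3, abs_mul, abs_of_pos (Real.exp_pos _), Real.log_mul (Real.exp_pos _).ne'
        (abs_ne_zero.2 h4), Real.log_exp, pos]
      ring
    rw [hpos']
    have hposi : 0 < |(g' *ᵥ iR x) i| := abs_pos.2 (row_ne hν hg'Y.2 hx i)
    have h5 : Real.log |(g' *ᵥ iR x) i| ≤ Real.log r := Real.log_le_log hposi (hup i).le
    have h6 : Real.log ν - e * Real.log r ≤ Real.log |(g' *ᵥ iR x) i| := by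
      have h7 := Real.log_le_log (div_pos hν (pow_pos hr0 _)) (hlow i)
      rw [Real.log_div hν.ne' (pow_pos hr0 _).ne', Real.log_pow] at h7
      simpa using h7
    have h8 : e * Real.log r ≤ e * (A₀ + 2 * (e * n)) := mul_le_mul_of_nonneg_left hlogr he0.le
    have h9 : a₀ + 2 * (e : ℝ) ^ 2 * n ≤ ρ := by
      rw [hy, le_div_iff₀ (by positivity)] at hny
      linarith
    have h10 : |Real.log ν| + e * Real.log r ≤ ρ := by
      refine le_trans ?_ h9
      rw [ha₀]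
      nlinarith
    have h11 : Real.log r ≤ e * Real.log r := le_mul_of_one_le_left hlogr0 he1
    rw [abs_le]
    constructor
    · have := neg_abs_le (Real.log ν)
      linarith
    · have := abs_nonneg (Real.log ν)
      linarith
  have hcard : (valSet g' {t : ℝ | |t| < T} X).ncard ≤ (ballVals g T s ρ).ncard :=
    Set.ncard_le_ncard hsub (ballVals_finite hg hν hnu T s ρ)
  have h2 : ρ / (4 * (e : ℝ) ^ 2) ≤ (n : ℝ) + 1 := by
    have h3 : ρ / (4 * (e : ℝ) ^ 2) ≤ y := by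
      rw [hy, div_le_div_iff₀ (by positivity) (by positivity)]
      have : 0 < (e : ℝ) ^ 2 := by positivity
      nlinarith
    linarith
  have h3 : (ρ / (4 * (e : ℝ) ^ 2)) ^ κ ≤ ((n : ℝ) + 1) ^ κ :=
    Real.rpow_le_rpow (by positivity) h2 hκ0
  have h4 : (ρ / (4 * (e : ℝ) ^ 2)) ^ κ = (1 / (4 * (e : ℝ) ^ 2)) ^ κ * ρ ^ κ := by
    rw [← Real.mul_rpow (by positivity) hρ0.le]
    congr 1
    ring
  rw [h4] at h3
  have h5 : (1 / (4 * (e : ℝ) ^ 2)) ^ κ * ρ ^ κ ≤ C₁ q * ((ballVals g T s ρ).ncard : ℝ) := by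
    refine (h3.trans h1).trans ?_
    exact mul_le_mul_of_nonneg_left (by exact_mod_cast hcard) (hC₁ q).le
  calc (C₁ q)⁻¹ * (1 / (4 * (e : ℝ) ^ 2)) ^ κ * ρ ^ κ
      = (C₁ q)⁻¹ * ((1 / (4 * (e : ℝ) ^ 2)) ^ κ * ρ ^ κ) := by ring
    _ ≤ (C₁ q)⁻¹ * (C₁ q * ((ballVals g T s ρ).ncard : ℝ)) :=
        mul_le_mul_of_nonneg_left h5 (inv_pos.2 (hC₁ q)).le
    _ = _ := by rw [← mul_assoc, inv_mul_cancel₀ (hC₁ q).ne', one_mul]

end Pool.Agent.Q222.TD
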